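import Pool.Agent.Helper37.KF.Stmts
import Pool.Agent.Helper81.KF.Err

/-!
# The sum of the errors of one row
-/

namespace Pool.Agent.Helper50.KF

open Finset
open scoped Classical
open Pool.Agent.Helper37.KF

theorem NN_pos (J : ℕ) (d : ℤ) : 0 < NN J d := by
  unfold NN gg
  split_ifs <;> positivity

theorem NN_bound (J d : ℕ) : (6 : ℝ) ^ d * NN J (d : ℤ) ≤ (41 : ℝ) ^ (4 * J) * (6 / 41 : ℝ) ^ d := by
  unfold NN gg
  split_ifs with h
  · have h1 : ((d : ℤ) - J).toNat = d - J := by omega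
    have h2 : J ≤ d := by omega
    rw [h1, div_pow]
    have h3 : (41 : ℝ) ^ d = 41 ^ (d - J) * 41 ^ J := by
      rw [← pow_add]; congr 1; omega
    have h4 : (0 : ℝ) < 41 ^ (d - J) := by positivity
    have h5 : (0 : ℝ) < 41 ^ J := by positivity
    have h6 : (1 : ℝ) ≤ 41 ^ J := one_le_pow₀ (by norm_num)
    have h7 : (41 : ℝ) ^ J ≤ 41 ^ (4 * J) := pow_le_pow_right₀ (by norm_num) (by omega)
    have h8 : (0 : ℝ) < 6 ^ d := by positivity
    rw [h3, ← div_eq_mul_inv, ← mul_div_assoc, div_le_div_iff₀ h4 (by positivity)]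
    have h9 : (6 : ℝ) ^ d * (41 ^ (d - J) * 41 ^ J) = 6 ^ d * 41 ^ (d - J) * 41 ^ J := by ring
    have h10 : (41 : ℝ) ^ (4 * J) * 6 ^ d * 41 ^ (d - J) = 6 ^ d * 41 ^ (d - J) * 41 ^ (4 * J) := by
      ring
    rw [h9, h10]
    exact mul_le_mul_of_nonneg_left h7 (by positivity)
  · have h1 : ((J : ℤ) - d).toNat = J - d := by omega
    rw [h1, ← pow_mul, div_pow]
    have h3 : (41 : ℝ) ^ (4 * J) = 41 ^ ((J - d) * 4) * 41 ^ (4 * d) := by
      rw [← pow_add]; congr 1; omega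
    have h4 : (41 : ℝ) ^ d ≤ 41 ^ (4 * d) := pow_le_pow_right₀ (by norm_num) (by omega)
    have h5 : (0 : ℝ) < 41 ^ d := by positivity
    rw [h3, ← mul_div_assoc, le_div_iff₀ h5]
    have h8 : (0 : ℝ) < 6 ^ d := by positivity
    have h9 : (0 : ℝ) < 41 ^ ((J - d) * 4) := by positivity
    calc (6 : ℝ) ^ d * 41 ^ ((J - d) * 4) * 41 ^ d
        ≤ (6 : ℝ) ^ d * 41 ^ ((J - d) * 4) * 41 ^ (4 * d) :=
          mul_le_mul_of_nonneg_left h4 (by positivity)
      _ = _ := by ring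

theorem term_le (N x q p : ℝ) (hN : 0 < N) (hx : 0 ≤ x) (hp : 0 ≤ p) (hq : p * N ≤ q) :
    Real.log (1 + p * x / 1) ≤ max 0 (Real.log (x / N)) + q := by
  set y := max 0 (Real.log (x / N)) with hy
  have hy0 : 0 ≤ y := le_max_left _ _
  have hq0 : 0 ≤ q := le_trans (by positivity) hq
  have hxe : x ≤ N * Real.exp y := by
    rcases hx.eq_or_lt with h | h
    · rw [← h]; positivity
    · have h1 : x / N = Real.exp (Real.log (x / N)) := (Real.exp_log (by positivity)).symm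
      have h2 : x / N ≤ Real.exp y := by
        rw [h1]; exact Real.exp_le_exp.2 (le_max_right _ _)
      rw [div_le_iff₀ hN] at h2
      linarith
  have h1 : 1 + p * x / 1 ≤ Real.exp (y + q) := by
    have h2 : p * x ≤ q * Real.exp y := by
      calc p * x ≤ p * (N * Real.exp y) := mul_le_mul_of_nonneg_left hxe hp
        _ = (p * N) * Real.exp y := by ring
        _ ≤ q * Real.exp y := mul_le_mul_of_nonneg_right hq (Real.exp_pos _).le
    have h3 : 1 ≤ Real.exp y := Real.one_le_exp hy0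
    have h4 : 1 + q ≤ Real.exp q := by linarith [Real.add_one_le_exp q]
    rw [Real.exp_add]
    calc 1 + p * x / 1 = 1 + p * x := by ring
      _ ≤ Real.exp y + q * Real.exp y := by linarith
      _ = Real.exp y * (1 + q) := by ring
      _ ≤ Real.exp y * Real.exp q := mul_le_mul_of_nonneg_left h4 (Real.exp_pos _).le
  have h5 : 0 < 1 + p * x / 1 := by
    have : 0 ≤ p * x := mul_nonneg hp hx
    rw [div_one]; linarith
  calc Real.log (1 + p * x / 1) ≤ Real.log (Real.exp (y + q)) := Real.log_le_log h5 h1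
    _ = y + q := Real.log_exp _

theorem geo_le (M : ℕ) : ∑ d ∈ range M, (6 / 41 : ℝ) ^ d ≤ 2 := by
  have h : ∑ d ∈ range M, (6 / 41 : ℝ) ^ d = (1 - (6 / 41 : ℝ) ^ M) / (1 - 6 / 41) := by
    rw [geom_sum_eq (by norm_num)]
    rw [div_eq_div_iff (by norm_num) (by norm_num)]
    ring
  rw [h, div_le_iff₀ (by norm_num)]
  have : (0 : ℝ) < (6 / 41 : ℝ) ^ M := by positivity
  linarith

theorem ee_le (J M i : ℕ) (r : ℕ → ℝ) (hr : ∀ j, 0 ≤ r j) :
    Pool.Agent.Helper81.KF.ee 6 1 M (fun j => if j < M then r j else 0) i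
      ≤ ex r J M i + 41 ^ (4 * J) * 2 := by
  unfold Pool.Agent.Helper81.KF.ee ex
  set t : ℕ → ℝ := fun j => if j < M then max 0 (Real.log (r j / NN J ((j : ℤ) - i))) else 0 with ht
  have ht0 : ∀ j, 0 ≤ t j := by
    intro j; simp only [ht]; split_ifs
    · exact le_max_left _ _
    · exact le_refl _
  have h1 : ∀ d ∈ range M, Real.log (1 + (6 : ℝ) ^ d * (if i + d < M then r (i + d) else 0) / 1)
      ≤ t (i + d) + 41 ^ (4 * J) * (6 / 41 : ℝ) ^ d := by
    intro d _
    by_cases h : i + d < M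
    · rw [if_pos h]
      have h2 := term_le (NN J (d : ℤ)) (r (i + d)) (41 ^ (4 * J) * (6 / 41 : ℝ) ^ d) ((6 : ℝ) ^ d)
        (NN_pos J d) (hr _) (by positivity) (NN_bound J d)
      have h3 : t (i + d) = max 0 (Real.log (r (i + d) / NN J (d : ℤ))) := by
        simp only [ht, if_pos h]
        have h4 : ((i + d : ℕ) : ℤ) - i = (d : ℤ) := by push_cast; ring
        rw [h4]
      rw [h3]
      exact h2
    · rw [if_neg h, mul_zero, zero_div, add_zero, Real.log_one]
      have := ht0 (i + d)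
      positivity
  refine (sum_le_sum h1).trans ?_
  rw [sum_add_distrib, ← mul_sum]
  have h2 : ∑ d ∈ range M, t (i + d) ≤ ∑ j ∈ range M, max 0 (Real.log (r j / NN J ((j : ℤ) - i))) := by
    have h3 : ∑ d ∈ range M, t (i + d) ≤ ∑ j ∈ range (i + M), t j := by
      rw [sum_range_add]
      have : 0 ≤ ∑ j ∈ range i, t j := sum_nonneg fun j _ => ht0 j
      linarith
    refine h3.trans ?_
    rw [add_comm i M, sum_range_add]
    have h4 : ∑ x ∈ range i, t (M + x) = 0 := by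
      apply sum_eq_zero
      intro x _
      simp only [ht]
      rw [if_neg (by omega)]
    rw [h4, add_zero]
    apply sum_le_sum
    intro j hj
    simp only [ht, if_pos (mem_range.1 hj)]
    exact le_refl _
  have h5 := mul_le_mul_of_nonneg_left (geo_le M) (show (0 : ℝ) ≤ 41 ^ (4 * J) by positivity)
  linarith

theorem ex_nonneg (r : ℕ → ℝ) (J M i : ℕ) : 0 ≤ ex r J M i := by
  unfold ex
  exact sum_nonneg fun j _ => le_max_left _ _

/-- one tolerance -/
theorem tol_le (l0 x e : ℝ) (hl : 0 < l0) (hx : 0 ≤ x) (he : 0 ≤ e) :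
    l0 * Real.exp (-e) * tl x (l0 * Real.exp (-e))
      ≤ l0 * (max 1 (l0 ^ 2)⁻¹) ^ (1 / 200 : ℝ) * (Real.exp (-(99 / 100) * e) * (min 1 x) ^ (1 / 200 : ℝ)) := by
  unfold tl
  have hE := Real.exp_pos (-e)
  have h1 : (l0 * Real.exp (-e)) ^ 2 = l0 ^ 2 * Real.exp (-(2 * e)) := by
    rw [mul_pow, ← Real.exp_nat_mul]; congr 2; push_cast; ring
  have hl2 : 0 < l0 ^ 2 := by positivity
  have hm : 0 ≤ min 1 x := le_min zero_le_one hx
  have hK : (1 : ℝ) ≤ max 1 (l0 ^ 2)⁻¹ := le_max_left _ _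
  have he2 : 1 ≤ Real.exp (2 * e) := Real.one_le_exp (by linarith)
  have h2 : min 1 (x / (l0 * Real.exp (-e)) ^ 2) ≤ max 1 (l0 ^ 2)⁻¹ * Real.exp (2 * e) * min 1 x := by
    have hKe : (1 : ℝ) ≤ max 1 (l0 ^ 2)⁻¹ * Real.exp (2 * e) := by
      calc (1 : ℝ) = 1 * 1 := by ring
        _ ≤ _ := mul_le_mul hK he2 zero_le_one (by positivity)
    rcases le_total 1 x with h | h
    · rw [min_eq_left h, mul_one]
      exact (min_le_left _ _).trans hKe
    · rw [min_eq_right h]
      refine (min_le_right _ _).trans ?_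
      rw [h1, div_eq_mul_inv, mul_inv, ← Real.exp_neg, neg_neg]
      have h3 : x * ((l0 ^ 2)⁻¹ * Real.exp (2 * e)) = (l0 ^ 2)⁻¹ * Real.exp (2 * e) * x := by ring
      rw [h3]
      apply mul_le_mul_of_nonneg_right _ hx
      apply mul_le_mul_of_nonneg_right (le_max_right _ _) (by positivity)
  have h4 : (min 1 (x / (l0 * Real.exp (-e)) ^ 2)) ^ (1 / 200 : ℝ)
      ≤ (max 1 (l0 ^ 2)⁻¹) ^ (1 / 200 : ℝ) * Real.exp (e / 100) * (min 1 x) ^ (1 / 200 : ℝ) := by
    have h5 : 0 ≤ min 1 (x / (l0 * Real.exp (-e)) ^ 2) := le_min zero_le_one (by positivity)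
    refine (Real.rpow_le_rpow h5 h2 (by norm_num)).trans ?_
    rw [Real.mul_rpow (by positivity) hm, Real.mul_rpow (by positivity) (by positivity)]
    have h6 : Real.exp (2 * e) ^ (1 / 200 : ℝ) = Real.exp (e / 100) := by
      rw [← Real.exp_mul]; congr 1; ring
    rw [h6]
  have h7 : Real.exp (-e) * Real.exp (e / 100) = Real.exp (-(99 / 100) * e) := by
    rw [← Real.exp_add]; congr 1; ring
  calc l0 * Real.exp (-e) * (min 1 (x / (l0 * Real.exp (-e)) ^ 2)) ^ (1 / 200 : ℝ)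
      ≤ l0 * Real.exp (-e) * ((max 1 (l0 ^ 2)⁻¹) ^ (1 / 200 : ℝ) * Real.exp (e / 100)
          * (min 1 x) ^ (1 / 200 : ℝ)) := mul_le_mul_of_nonneg_left h4 (by positivity)
    _ = l0 * (max 1 (l0 ^ 2)⁻¹) ^ (1 / 200 : ℝ)
          * ((Real.exp (-e) * Real.exp (e / 100)) * (min 1 x) ^ (1 / 200 : ℝ)) := by ring
    _ = _ := by rw [h7]

theorem st_err : ST_ERR := by
  intro J l0 hl
  obtain ⟨C, hC, hrow⟩ := Pool.Agent.Helper81.KF.row_sum 6 1 (99 / 100) (1 / 200) (by norm_num)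
    (by norm_num) (by norm_num) (by norm_num)
  set D : ℝ := 41 ^ (4 * J) * 2 with hD
  set K : ℝ := l0 * (max 1 (l0 ^ 2)⁻¹) ^ (1 / 200 : ℝ) with hK
  have hK0 : 0 ≤ K := by
    rw [hK]; positivity
  refine ⟨K * (Real.exp ((99 / 100) * D) * C), fun r M hr ha => ?_⟩
  set r' : ℕ → ℝ := fun j => if j < M then r j else 0 with hr'
  have hr0' : ∀ j, 0 ≤ r' j := by
    intro j; simp only [hr']; split_ifs
    · exact hr j
    · exact le_refl _
  have ha' : Antitone r' := by
    intro i j hij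
    simp only [hr']
    split_ifs with h1 h2
    · exact ha hij
    · omega
    · exact hr i
    · exact le_refl _
  have h1 := hrow M r' hr0' ha'
  have h2 : ∀ i ∈ range M, l0 * Real.exp (-ex r J M i) * tl (r i) (l0 * Real.exp (-ex r J M i))
      ≤ K * Real.exp ((99 / 100) * D)
        * (Real.exp (-(99 / 100) * Pool.Agent.Helper81.KF.ee 6 1 M r' i) * (min 1 (r' i)) ^ (1 / 200 : ℝ)) := by
    intro i hi
    have h3 := tol_le l0 (r i) (ex r J M i) hl (hr i) (ex_nonneg r J M i)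
    have h4 : r' i = r i := by simp only [hr', if_pos (mem_range.1 hi)]
    have h5 := ee_le J M i r hr
    have h6 : Real.exp (-(99 / 100) * ex r J M i) ≤ Real.exp ((99 / 100) * D)
        * Real.exp (-(99 / 100) * Pool.Agent.Helper81.KF.ee 6 1 M r' i) := by
      rw [← Real.exp_add]
      apply Real.exp_le_exp.2
      rw [← hD] at h5
      linarith
    rw [h4]
    refine h3.trans ?_
    rw [← hK]
    have h7 : 0 ≤ (min 1 (r i)) ^ (1 / 200 : ℝ) := Real.rpow_nonneg (le_min zero_le_one (hr i)) _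
    calc K * (Real.exp (-(99 / 100) * ex r J M i) * (min 1 (r i)) ^ (1 / 200 : ℝ))
        ≤ K * ((Real.exp ((99 / 100) * D)
          * Real.exp (-(99 / 100) * Pool.Agent.Helper81.KF.ee 6 1 M r' i))
            * (min 1 (r i)) ^ (1 / 200 : ℝ)) :=
          mul_le_mul_of_nonneg_left (mul_le_mul_of_nonneg_right h6 h7) hK0
      _ = _ := by ring
  refine (sum_le_sum h2).trans ?_
  rw [← mul_sum]
  calc K * Real.exp ((99 / 100) * D) * ∑ i ∈ range M,
        (Real.exp (-(99 / 100) * Pool.Agent.Helper81.KF.ee 6 1 M r' i) * (min 1 (r' i)) ^ (1 / 200 : ℝ))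
      ≤ K * Real.exp ((99 / 100) * D) * C := mul_le_mul_of_nonneg_left h1 (by positivity)
    _ = _ := by ring

end Pool.Agent.Helper50.KF
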